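import Mathlib

open Set Topology Filter

universe u v w

namespace Pool.Agent.Results.MP_5f6599_gt.NeverParacompact

/-- `D` fills countable subproducts of `∏ i, X i`: for every nonempty countable set `J` of
indices, the projection of `D` to `∏ i : J, X i` is everything. -/
def FillsCountableSubproducts {I : Type u} {X : I → Type v} (D : Set (∀ i, X i)) : Prop :=
  ∀ J : Set I, J.Nonempty → J.Countable →
    (fun (x : ∀ i, X i) (j : J) => x j) '' D = Set.univ

/-- One step: a point outside the closures of finitely many members of a locally finite family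
has a box neighbourhood that misses those members and meets only finitely many others. -/
theorem step {I : Type u} {X : I → Type v} [∀ i, TopologicalSpace (X i)]
    {D : Set (∀ i, X i)} {κ : Type w} (V : κ → Set D) (hVf : LocallyFinite V)
    (d : D) (W : Finset κ) (hd : ∀ k ∈ W, d ∉ closure (V k)) :
    ∃ (L : List I) (B : ∀ i, Set (X i)) (W' : Finset κ), (∀ i, d.1 i ∈ B i) ∧
      ∀ p : D, (∀ i ∈ L, p.1 i ∈ B i) → ∀ k, p ∈ V k → k ∈ W' ∧ k ∉ W := by
  classical
  obtain ⟨t, ht, htf⟩ := hVf d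
  have h1 : t ∩ ⋂ k ∈ W, (closure (V k))ᶜ ∈ 𝓝 d := by
    refine inter_mem ht ?_
    rw [Finset.iInter_mem_sets]
    intro k hk
    exact isClosed_closure.isOpen_compl.mem_nhds (hd k hk)
  rw [nhds_subtype_eq_comap, mem_comap] at h1
  obtain ⟨u, hu, hut⟩ := h1
  rw [nhds_pi, Filter.mem_pi] at hu
  obtain ⟨F, hF, B, hB, hFB⟩ := hu
  refine ⟨hF.toFinset.toList, B, htf.toFinset, fun i => mem_of_mem_nhds (hB i), ?_⟩
  intro p hp k hpk
  have hpu : p ∈ t ∩ ⋂ k ∈ W, (closure (V k))ᶜ := by
    apply hut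
    apply hFB
    intro i hi
    apply hp
    simpa using hi
  constructor
  · rw [Set.Finite.mem_toFinset]
    exact ⟨p, hpk, hpu.1⟩
  · intro hk
    have := mem_iInter₂.1 hpu.2 k hk
    exact this (subset_closure hpk)

/-- The main recursion. -/
theorem recursion {I : Type u} {X : I → Type v} [∀ i, TopologicalSpace (X i)]
    {D : Set (∀ i, X i)} {κ : Type w} (V : κ → Set D)
    (hVc : ∀ d : D, ∃ k, d ∈ V k) (hVf : LocallyFinite V)
    (hfill : ∀ J : Set I, J.Countable → ∀ z : ∀ i, X i, ∃ d : D, ∀ i ∈ J, d.1 i = z i)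
    (x : List I → Finset κ → D) (hx : ∀ E W, ∀ k ∈ W, x E W ∉ closure (V k)) :
    ∃ (E : ℕ → List I) (W : ℕ → Finset κ), (∀ n, ∃ L, E (n + 1) = E n ++ L) ∧
      ∀ y : D, ∃ O : ∀ i, Set (X i), (∀ i, O i ∈ 𝓝 (y.1 i)) ∧
        ∀ᶠ n in atTop, ∃ i ∈ E n, (x (E n) (W n)).1 i ∉ O i := by
  classical
  choose L B W' hdB hstep using fun (s : List I × Finset κ) =>
    step V hVf (x s.1 s.2) s.2 (hx s.1 s.2)
  let S : ℕ → List I × Finset κ := fun n =>
    Nat.rec (motive := fun _ => List I × Finset κ) ([], ∅) (fun _ s => (s.1 ++ L s, s.2 ∪ W' s)) n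
  have hS : ∀ n, S (n + 1) = ((S n).1 ++ L (S n), (S n).2 ∪ W' (S n)) := fun n => rfl
  have hEmono : ∀ {m n}, m ≤ n → ∀ i ∈ (S m).1, i ∈ (S n).1 := by
    intro m n hmn
    induction hmn with
    | refl => intro i hi; exact hi
    | step _ ih =>
      intro i hi
      rw [Nat.succ_eq_add_one, hS]
      exact List.mem_append_left _ (ih i hi)
  have hWmono : ∀ {m n}, m ≤ n → ∀ i ∈ (S m).2, i ∈ (S n).2 := by
    intro m n hmn
    induction hmn with
    | refl => intro i hi; exact hi
    | step _ ih =>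
      intro i hi
      rw [Nat.succ_eq_add_one, hS]
      exact Finset.mem_union_left _ (ih i hi)
  refine ⟨fun n => (S n).1, fun n => (S n).2, fun n => ⟨L (S n), by simp only [hS]⟩, ?_⟩
  intro y
  obtain ⟨t, ht, htf⟩ := hVf y
  rw [nhds_subtype_eq_comap, mem_comap] at ht
  obtain ⟨u, hu, hut⟩ := ht
  rw [nhds_pi, Filter.mem_pi] at hu
  obtain ⟨F, hF, O, hO, hFO⟩ := hu
  refine ⟨O, hO, ?_⟩
  have e1 : ∀ᶠ n in atTop, ∀ i ∈ F, (∃ m, i ∈ (S m).1) → i ∈ (S n).1 := by
    rw [eventually_all_finite hF]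
    intro i _
    by_cases h : ∃ m, i ∈ (S m).1
    · obtain ⟨m, hm⟩ := h
      filter_upwards [eventually_ge_atTop m] with n hn _ using hEmono hn i hm
    · exact Eventually.of_forall fun n h' => absurd h' h
  have e2 : ∀ᶠ n in atTop, ∀ k ∈ {k | (V k ∩ t).Nonempty},
      (∃ m, k ∈ (S m).2) → k ∈ (S n).2 := by
    rw [eventually_all_finite htf]
    intro i _
    by_cases h : ∃ m, i ∈ (S m).2
    · obtain ⟨m, hm⟩ := h
      filter_upwards [eventually_ge_atTop m] with n hn _ using hWmono hn i hm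
    · exact Eventually.of_forall fun n h' => absurd h' h
  filter_upwards [e1, e2] with n h1 h2
  by_contra hcon
  push Not at hcon
  -- the common point
  obtain ⟨w, hw⟩ := hfill ({i | i ∈ (S (n+1)).1} ∪ F)
    (((List.finite_toSet (S (n+1)).1).union hF).countable)
    (fun i => if i ∈ (S (n + 1)).1 then (x (S n).1 (S n).2).1 i else y.1 i)
  have hw1 : ∀ i ∈ (S (n + 1)).1, w.1 i = (x (S n).1 (S n).2).1 i := by
    intro i hi
    rw [hw i (Or.inl hi), if_pos hi]
  have hw2 : ∀ i ∈ F, i ∉ (S (n + 1)).1 → w.1 i = y.1 i := by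
    intro i hi hi'
    rw [hw i (Or.inr hi), if_neg hi']
  have hwt : w ∈ t := by
    apply hut
    apply hFO
    intro i hi
    by_cases hi' : i ∈ (S (n + 1)).1
    · rw [hw1 i hi']
      exact hcon i (h1 i hi ⟨n + 1, hi'⟩)
    · rw [hw2 i hi hi']
      exact mem_of_mem_nhds (hO i)
  obtain ⟨k, hk⟩ := hVc w
  have h3 := hstep (S n) w (by
    intro i hi
    rw [hw1 i (by rw [hS]; exact List.mem_append_right _ hi)]
    exact hdB (S n) i) k hk
  exact h3.2 (h2 k ⟨w, hk, hwt⟩ ⟨n + 1, by rw [hS]; exact Finset.mem_union_right _ h3.1⟩)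

/-- Paracompact Hausdorff spaces: precise locally finite refinements with closures. -/
theorem refine_closure {Y : Type u} [TopologicalSpace Y] [T2Space Y] [ParacompactSpace Y]
    {κ : Type w} (U : κ → Set Y) (hU : ∀ k, IsOpen (U k)) (hUc : ∀ y, ∃ k, y ∈ U k) :
    ∃ V : κ → Set Y, (∀ y, ∃ k, y ∈ V k) ∧ LocallyFinite V ∧ ∀ k, closure (V k) ⊆ U k := by
  obtain ⟨v, hvo, hvc, hvf, hvU⟩ := precise_refinement U hU (by
    ext y; simpa using hUc y)
  obtain ⟨w, hwc, hwo, hwv⟩ := exists_iUnion_eq_closure_subset hvo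
    (fun x => hvf.point_finite x) hvc
  refine ⟨w, ?_, ?_, fun k => (hwv k).trans (hvU k)⟩
  · intro y
    have : y ∈ ⋃ i, w i := by rw [hwc]; trivial
    simpa using this
  · exact hvf.subset fun k => subset_closure.trans (hwv k)

/-- A factor that is not compact carries a locally finite sequence. -/
theorem locally_finite_sequence {I : Type u} {X : I → Type v} [∀ i, TopologicalSpace (X i)]
    {D : Set (∀ i, X i)}
    (hfill : ∀ J : Set I, J.Countable → ∀ z : ∀ i, X i, ∃ d : D, ∀ i ∈ J, d.1 i = z i)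
    [T2Space D] [ParacompactSpace D] (z : ∀ i, X i) (j : I) (hj : ¬ CompactSpace (X j)) :
    ∃ a : ℕ → X j, ∀ b : X j, ∃ O ∈ 𝓝 b, ∀ᶠ n in atTop, a n ∉ O := by
  classical
  have hj' : ¬ IsCompact (univ : Set (X j)) := fun h => hj ⟨h⟩
  rw [isCompact_iff_finite_subcover] at hj'
  push Not at hj'
  obtain ⟨κ, G, hGo, hGc, hG⟩ := hj'
  obtain ⟨V, hVc, hVf, hVU⟩ := refine_closure (Y := D) (κ := κ)
    (fun k => {d : D | d.1 j ∈ G k})
    (fun k => (hGo k).preimage ((continuous_apply j).comp continuous_subtype_val))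
    (fun d => by
      have := hGc (mem_univ (d.1 j))
      simpa using this)
  have hex : ∀ (E : List I) (W : Finset κ), ∃ d : D, (∀ i ∈ E, i ≠ j → d.1 i = z i) ∧
      ∀ k ∈ W, d.1 j ∉ G k := by
    intro E W
    have h1 := hG W
    rw [not_subset] at h1
    obtain ⟨c, _, hc⟩ := h1
    obtain ⟨d, hd⟩ := hfill ({i | i ∈ E} ∪ {j})
      (((List.finite_toSet E).union (finite_singleton j)).countable)
      (Function.update z j c)
    refine ⟨d, ?_, ?_⟩
    · intro i hi hij
      rw [hd i (Or.inl hi), Function.update_of_ne hij]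
    · intro k hk
      rw [hd j (Or.inr rfl), Function.update_self]
      intro hck
      exact hc (mem_biUnion hk hck)
  choose x hx1 hx2 using hex
  obtain ⟨E, W, hE, hy⟩ := recursion V hVc hVf hfill x
    (fun E W k hk hcl => hx2 E W k hk (hVU k hcl))
  refine ⟨fun n => (x (E n) (W n)).1 j, fun b => ?_⟩
  obtain ⟨y, hyd⟩ := hfill ({i | ∃ n, i ∈ E n} ∪ {j})
    (by
      refine Countable.union ?_ (countable_singleton j)
      have : {i | ∃ n, i ∈ E n} = ⋃ n, {i | i ∈ E n} := by ext; simp
      rw [this]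
      exact countable_iUnion fun n => (List.finite_toSet _).countable)
    (Function.update z j b)
  obtain ⟨O, hO, hev⟩ := hy y
  have hyj : y.1 j = b := by rw [hyd j (Or.inr rfl), Function.update_self]
  refine ⟨O j, hyj ▸ hO j, ?_⟩
  filter_upwards [hev] with n hn
  obtain ⟨i, hiE, hi⟩ := hn
  by_cases hij : i = j
  · subst hij; exact hi
  · exfalso
    apply hi
    rw [hx1 (E n) (W n) i hiE hij]
    have : y.1 i = z i := by
      rw [hyd i (Or.inl ⟨n, hiE⟩), Function.update_of_ne hij]
    rw [← this]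
    exact mem_of_mem_nhds (hO i)

/-- Full answer to Q1 (the negated form holds, with no separation axiom on the factors): if
uncountably many factors fail to be compact (in particular if `I` is uncountable and no factor
is compact), then no subspace `D` of the product that fills countable subproducts is
paracompact Hausdorff. -/
theorem result {I : Type u} {X : I → Type v} [∀ i, TopologicalSpace (X i)]
    (hX : ¬ {i | ¬ CompactSpace (X i)}.Countable) (D : Set (∀ i, X i))
    (hD : FillsCountableSubproducts D) : ¬ (T2Space D ∧ ParacompactSpace D) := by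
  classical
  rintro ⟨hT, hP⟩
  obtain ⟨i0, hi0⟩ : ∃ i0, ¬ CompactSpace (X i0) := by
    by_contra h
    push Not at h
    apply hX
    have : {i | ¬ CompactSpace (X i)} = ∅ := by
      ext i; simp [h i]
    rw [this]
    exact countable_empty
  obtain ⟨c⟩ : Nonempty (X i0) := by
    by_contra h
    rw [not_nonempty_iff] at h
    exact hi0 inferInstance
  obtain ⟨z, hz⟩ : ∃ z, z ∈ D := by
    have h1 := hD {i0} (singleton_nonempty _) (countable_singleton _)
    have h2 : (fun j : ({i0} : Set I) => (by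
        have hj : (j : I) = i0 := j.2
        rw [hj]; exact c : X j)) ∈
        (fun (x : ∀ i, X i) (j : ({i0} : Set I)) => x j) '' D := by
      rw [h1]; trivial
    obtain ⟨d, hd, _⟩ := h2
    exact ⟨d, hd⟩
  have hfill : ∀ J : Set I, J.Countable → ∀ z : ∀ i, X i, ∃ d : D, ∀ i ∈ J, d.1 i = z i := by
    intro J hJ z'
    rcases J.eq_empty_or_nonempty with rfl | hJn
    · exact ⟨⟨z, hz⟩, fun i hi => absurd hi (by simp)⟩
    · have h1 := hD J hJn hJ
      have h2 : (fun j : J => z' j) ∈ (fun (x : ∀ i, X i) (j : J) => x j) '' D := by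
        rw [h1]; trivial
      obtain ⟨d, hd, hdz⟩ := h2
      exact ⟨⟨d, hd⟩, fun i hi => congrFun hdz ⟨i, hi⟩⟩
  have hseq : ∀ j, ∃ a : ℕ → X j, ∀ b : X j, ∃ O ∈ 𝓝 b,
      (¬ CompactSpace (X j) → ∀ᶠ n in atTop, a n ∉ O) := by
    intro j
    by_cases hj : CompactSpace (X j)
    · exact ⟨fun _ => z j, fun b => ⟨univ, univ_mem, fun h => absurd hj h⟩⟩
    · obtain ⟨a, ha⟩ := locally_finite_sequence hfill z j hj
      refine ⟨a, fun b => ?_⟩
      obtain ⟨O, hO, h⟩ := ha b
      exact ⟨O, hO, fun _ => h⟩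
  choose a ha using hseq
  choose O hO hOa using ha
  -- index sets
  have hfin : ∀ i, ¬ CompactSpace (X i) → ∀ (b : X i), {n | a i n ∈ O i b}.Finite := by
    intro i hi b
    have := hOa i b hi
    rw [← Nat.cofinite_eq_atTop, Filter.eventually_cofinite] at this
    simpa using this
  have hA : ∀ x : D, ∃ (K : Finset ℕ) (A : Finset I), K.card < A.card ∧
      ∀ i ∈ A, ∀ n, a i n ∈ O i (x.1 i) → n ∈ K := by
    intro x
    let φ : {i // ¬ CompactSpace (X i)} → Finset ℕ := fun i => (hfin i.1 i.2 (x.1 i.1)).toFinset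
    obtain ⟨K, hK⟩ : ∃ K : Finset ℕ, (φ ⁻¹' {K}).Infinite := by
      by_contra h
      push Not at h
      apply hX
      have h2 : (univ : Set {i // ¬ CompactSpace (X i)}).Countable := by
        have h3 : (univ : Set {i // ¬ CompactSpace (X i)}) = ⋃ K : Finset ℕ, φ ⁻¹' {K} := by
          ext; simp
        rw [h3]
        exact countable_iUnion fun K => (h K).countable
      exact Set.countable_coe_iff.1 (countable_univ_iff.1 h2)
    obtain ⟨A, hAs, hAc⟩ := hK.exists_subset_card_eq (K.card + 1)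
    refine ⟨K, A.map (Function.Embedding.subtype _), by rw [Finset.card_map]; omega, ?_⟩
    intro i hi n hn
    obtain ⟨j, hj, rfl⟩ := Finset.mem_map.1 hi
    have h1 : φ j = K := hAs hj
    rw [← h1]
    exact ((hfin j.1 j.2 (x.1 j.1)).mem_toFinset).2 hn
  choose K A hKA hAK using hA
  let U : D → Set D := fun x => {y : D | ∀ i ∈ A x, y.1 i ∈ interior (O i (x.1 i))}
  have hUo : ∀ x, IsOpen (U x) := by
    intro x
    have : U x = ⋂ i ∈ A x, {y : D | y.1 i ∈ interior (O i (x.1 i))} := by
      ext y; simp [U]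
    rw [this]
    exact isOpen_biInter_finset fun i _ =>
      isOpen_interior.preimage ((continuous_apply i).comp continuous_subtype_val)
  have hUx : ∀ x, x ∈ U x := by
    intro x i _
    exact mem_interior_iff_mem_nhds.2 (hO i (x.1 i))
  obtain ⟨V, hVc, hVf, hVU⟩ := refine_closure U hUo (fun y => ⟨y, hUx y⟩)
  have hex : ∀ (E : List I) (W : Finset D), ∃ d : D, (∀ i ∈ E, d.1 i = a i (E.idxOf i)) ∧
      ∀ k ∈ W, d ∉ U k := by
    intro E W
    let L : List I := (W.biUnion A).toList
    obtain ⟨d, hd⟩ := hfill {i | i ∈ E ++ L} ((List.finite_toSet _).countable)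
      (fun i => a i ((E ++ L).idxOf i))
    refine ⟨d, ?_, ?_⟩
    · intro i hi
      rw [hd i (List.mem_append_left _ hi), List.idxOf_append_of_mem hi]
    · intro k hk hdk
      have hAL : ∀ i ∈ A k, i ∈ E ++ L := by
        intro i hi
        apply List.mem_append_right
        rw [Finset.mem_toList]
        exact Finset.mem_biUnion.2 ⟨k, hk, hi⟩
      have h1 : ∀ i ∈ A k, (E ++ L).idxOf i ∈ K k := by
        intro i hi
        apply hAK k i hi
        have h2 := interior_subset (hdk i hi)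
        rwa [hd i (hAL i hi)] at h2
      have h3 : (A k).card ≤ (K k).card := by
        apply Finset.card_le_card_of_injOn (fun i => (E ++ L).idxOf i)
        · intro i hi; exact h1 i hi
        · intro i hi i' hi' hii'
          exact (List.idxOf_inj (hAL i hi)).1 hii'
      exact absurd (hKA k) (not_lt.2 h3)
  choose x hx1 hx2 using hex
  obtain ⟨E, W, hE, hy⟩ := recursion V hVc hVf hfill x
    (fun E W k hk hcl => hx2 E W k hk (hVU k hcl))
  -- the limit point
  have hidx : ∀ {m n}, m ≤ n → ∀ i ∈ E m, i ∈ E n ∧ (E n).idxOf i = (E m).idxOf i := by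
    intro m n hmn
    induction hmn with
    | refl => intro i hi; exact ⟨hi, rfl⟩
    | step _ ih =>
      intro i hi
      obtain ⟨L, hL⟩ := hE _
      obtain ⟨h1, h2⟩ := ih i hi
      rw [Nat.succ_eq_add_one, hL]
      exact ⟨List.mem_append_left _ h1, by rw [List.idxOf_append_of_mem h1, h2]⟩
  let f : I → ℕ := fun i => if h : ∃ n, i ∈ E n then (E h.choose).idxOf i else 0
  have hf : ∀ n, ∀ i ∈ E n, f i = (E n).idxOf i := by
    intro n i hi
    have h : ∃ n, i ∈ E n := ⟨n, hi⟩
    have h1 : f i = (E h.choose).idxOf i := by simp only [f]; rw [dif_pos h]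
    rw [h1]
    rcases le_total h.choose n with hle | hle
    · exact ((hidx hle i h.choose_spec).2).symm
    · exact (hidx hle i hi).2
  obtain ⟨y, hyd⟩ := hfill {i | ∃ n, i ∈ E n}
    (by
      have : {i | ∃ n, i ∈ E n} = ⋃ n, {i | i ∈ E n} := by ext; simp
      rw [this]
      exact countable_iUnion fun n => (List.finite_toSet _).countable)
    (fun i => a i (f i))
  obtain ⟨Oy, hOy, hev⟩ := hy y
  obtain ⟨n, i, hiE, hi⟩ := hev.exists
  apply hi
  rw [hx1 (E n) (W n) i hiE, ← hf n i hiE, ← hyd i ⟨n, hiE⟩]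
  exact mem_of_mem_nhds (hOy i)

end Pool.Agent.Results.MP_5f6599_gt.NeverParacompact
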